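import Pool.Agent.N236.RT.Main

/-!
# Short elements of arithmetic groups have dependent eigenvalues

Let `Γ` be an arithmetic group, realized by integral matrices of size `n` over a number field `k` of
degree `m`, with at most `s` noncompact embeddings. If `γ ∈ Γ` has two multiplicatively independent
eigenvalues, then one of its eigenvalues at a noncompact embedding has absolute value at
least `exp (c m ^ (1/2 - ε))`, with `c > 0` depending only on `s`, `n` and `ε`. So for every real Lie
group the elements of infinite order in all uniform arithmetic lattices that could contradict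
Margulis' conjecture are those all of whose eigenvalues are, up to roots of unity, powers of
one number; all other elements stay out of a fixed neighbourhood of the identity (also after
conjugation), and out of every given bounded set if the degree of the field is large.

`Pool.Agent.H225R3.MargDefs` contains the definition of `Realization ρ Γ k n S`: a homomorphism `r`
from `Γ` to the `n` by `n` matrices over the ring of integers of the number field `k`, bounded under
all embeddings outside `S`, such that for `σ` in `S` the eigenvalues of `σ (r γ)` are eigenvalues of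
`ρ γ`, and such that only `1` is mapped to a unipotent matrix.

Method: the lower bound `c N ^ (-1/2 - ε)` for the larger height of two multiplicatively independent
units of a field of degree `N` (`Pool.Agent.N236.RT.s_ad`; a sharper bound is due to Amoroso and
David, 1999; the proof given here is elementary).
-/

set_option autoImplicit false

namespace Pool.Agent.Results.MP_f8a1e7_al.IndependentEigenvalues

open NumberField Module Pool.Agent.H225R3.Marg

universe u

/-- `γ` has two multiplicatively independent eigenvalues: for some embedding `σ` of `k` the complex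
matrix `σ (r γ)` has eigenvalues `z`, `w` such that `z ^ a * w ^ b = 1` only for `a = b = 0`. -/
def RankTwo {G : Type*} [Group G] {M : ℕ} {ρ : G →* Matrix (Fin M) (Fin M) ℂ} {Γ : Subgroup G}
    {k : Type} [Field k] [NumberField k] {n : ℕ} {S : Finset (k →+* ℂ)}
    (R : Realization ρ Γ k n S) (γ : Γ) : Prop :=
  ∃ (σ : k →+* ℂ) (z w : ℂ), IsEig (conjMat σ (R.r γ)) z ∧ IsEig (conjMat σ (R.r γ)) w ∧
    ∀ a b : ℤ, z ^ a * w ^ b = 1 → a = 0 ∧ b = 0

/-- **Short elements have dependent eigenvalues.**

1. For `0 < ε < 1/2` and all `s`, `n` there is `c > 0` such that, for every realization `R` of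
   size `n` with at most `s` noncompact embeddings over a number field `k`, every element `γ` with two
   multiplicatively independent eigenvalues has, at a noncompact embedding, an eigenvalue `l`, which
   is also an eigenvalue of `ρ γ`, with `log |l| ≥ c [k : ℚ] ^ (1/2 - ε)`.
2. For every continuous finite dimensional complex representation `ρ` of a topological group `G` and
   all `s`, `n` there is a neighbourhood `U` of `1` such that for all groups `Γ` with a realization of
   size `n` with at most `s` noncompact embeddings and all `g` in `G`, no element of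
   `g U g⁻¹ ∩ Γ` has two multiplicatively independent eigenvalues. -/
theorem result :
    (∀ (ε : ℝ), 0 < ε → ε < 1 / 2 → ∀ s n : ℕ, ∃ c : ℝ, 0 < c ∧
      ∀ (G : Type u) [Group G] (M : ℕ) (ρ : G →* Matrix (Fin M) (Fin M) ℂ) (Γ : Subgroup G)
        (k : Type) [Field k] [NumberField k] (S : Finset (k →+* ℂ)) (R : Realization ρ Γ k n S),
        S.card ≤ s → ∀ γ : Γ, RankTwo R γ →
        ∃ τ ∈ S, ∃ l : ℂ, IsEig (conjMat τ (R.r γ)) l ∧ IsEig (ρ γ) l ∧
          c * (finrank ℚ k : ℝ) ^ (1 / 2 - ε) ≤ Real.log ‖l‖) ∧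
    (∀ (G : Type u) [Group G] [TopologicalSpace G] (M : ℕ) (ρ : G →* Matrix (Fin M) (Fin M) ℂ),
      Continuous ρ → ∀ s n : ℕ, ∃ U ∈ nhds (1 : G), ∀ (Γ : Subgroup G) (k : Type) [Field k]
        [NumberField k] (S : Finset (k →+* ℂ)) (R : Realization ρ Γ k n S), S.card ≤ s →
        ∀ γ : Γ, RankTwo R γ → ∀ g : G, ∀ u ∈ U, g * u * g⁻¹ ≠ γ) := by
  have key : ∀ (ε : ℝ), 0 < ε → ε < 1 / 2 → ∀ s n : ℕ, ∃ c : ℝ, 0 < c ∧
      ∀ (G : Type u) [Group G] (M : ℕ) (ρ : G →* Matrix (Fin M) (Fin M) ℂ) (Γ : Subgroup G)
        (k : Type) [Field k] [NumberField k] (S : Finset (k →+* ℂ)) (R : Realization ρ Γ k n S),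
        S.card ≤ s → ∀ γ : Γ, RankTwo R γ →
        ∃ τ ∈ S, ∃ l : ℂ, IsEig (conjMat τ (R.r γ)) l ∧ IsEig (ρ γ) l ∧
          c * (finrank ℚ k : ℝ) ^ (1 / 2 - ε) ≤ Real.log ‖l‖ := by
    intro ε hε hε2 s n
    obtain ⟨c, hc, h⟩ := Pool.Agent.N236.RT.indep_bound Pool.Agent.N236.RT.s_pair ε hε hε2 s n
    refine ⟨c, hc, ?_⟩
    rintro G _ M ρ Γ k _ _ S R hs γ ⟨σ, z, w, hz, hw, hzw⟩
    exact h G M ρ Γ k S R hs γ σ z w hz hw hzw
  refine ⟨key, ?_⟩
  intro G _ _ M ρ hρ s n
  obtain ⟨c, hc, h⟩ := key (1 / 4) (by norm_num) (by norm_num) s n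
  obtain ⟨ε, hε, hε2⟩ : ∃ ε : ℝ, 0 < ε ∧ Real.log (1 + ε) < c := by
    refine ⟨Real.exp (c / 2) - 1, by
      have := Real.add_one_lt_exp (x := c / 2) (by positivity)
      linarith, ?_⟩
    rw [add_sub_cancel, Real.log_exp]
    linarith
  refine ⟨_, nhd ρ hρ ε hε, ?_⟩
  intro Γ k _ _ S R hs γ hγ g u hu hgu
  obtain ⟨τ, _, l, _, hl, hlow⟩ := h G M ρ Γ k S R hs γ hγ
  have hk : (1 : ℝ) ≤ (finrank ℚ k : ℝ) := by
    have h0 : 0 < finrank ℚ k := finrank_pos
    exact_mod_cast h0
  have hlow2 : c ≤ Real.log ‖l‖ := by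
    refine le_trans ?_ hlow
    have h1 : (1 : ℝ) ≤ (finrank ℚ k : ℝ) ^ ((1 : ℝ) / 2 - 1 / 4) :=
      Real.one_le_rpow hk (by norm_num)
    nlinarith
  have h2 : (ρ (g * u * g⁻¹)).charpoly = (ρ u).charpoly := by
    rw [map_mul, map_mul]
    have h4 : ρ g⁻¹ * ρ g = 1 := by rw [← map_mul, inv_mul_cancel, map_one]
    rw [Matrix.charpoly_mul_comm, ← mul_assoc, h4, one_mul]
  rw [IsEig, ← hgu, h2] at hl
  have h5 := close_eig (ρ u) ε hε hu l hl
  have h6 : ‖l‖ ≤ 1 + ε := by
    have h7 : ‖l‖ ≤ ‖l - 1‖ + ‖(1 : ℂ)‖ := by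
      have := norm_add_le (l - 1) 1
      rwa [sub_add_cancel] at this
    rw [norm_one] at h7
    linarith
  have h8 : 0 < ‖l‖ := by
    by_contra h9
    have h10 : ‖l‖ = 0 := le_antisymm (not_lt.mp h9) (norm_nonneg _)
    rw [h10, Real.log_zero] at hlow2
    linarith
  have h9 := Real.log_le_log h8 h6
  linarith

end Pool.Agent.Results.MP_f8a1e7_al.IndependentEigenvalues
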